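import Mathlib

/-!
# Pairs of integers and the polynomials of wreath products
-/

set_option autoImplicit false

open scoped Classical

namespace Pool.Agent.H96.KR

/-- the coefficient -/
def cc (q p : ℕ) : ℤ := if q = p then -1 else (q : ℤ) ^ 2 - 1

/-- the quotient of `x ^ r - y ^ r` by `x - y` -/
def gs (r : ℕ) (x y : ℤ) : ℤ := ∑ i ∈ Finset.range r, x ^ i * y ^ (r - 1 - i)

theorem gs_mul (r : ℕ) (x y : ℤ) : (x - y) * gs r x y = x ^ r - y ^ r := by
  unfold gs
  rw [mul_comm]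
  exact geom_sum₂_mul x y r

/-- scaling -/
theorem gs_scale {r : ℕ} (hr : 0 < r) (n x y : ℤ) : gs r (n * x) (n * y) = n ^ (r - 1) * gs r x y := by
  unfold gs
  rw [Finset.mul_sum]
  refine Finset.sum_congr rfl fun i hi => ?_
  have h1 : i + (r - 1 - i) = r - 1 := by
    have := Finset.mem_range.mp hi
    omega
  calc (n * x) ^ i * (n * y) ^ (r - 1 - i) = n ^ (i + (r - 1 - i)) * (x ^ i * y ^ (r - 1 - i)) := by
        rw [mul_pow, mul_pow, pow_add]; ring
    _ = _ := by rw [h1]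

/-- the choice of a multiplier modulo `s` -/
theorem exists_unit {r s : ℕ} (hr : r.Prime) (hs : s.Prime) (hrs : r ≠ s) {x y : ℤ}
    (hxy : ¬ (s : ℤ) ∣ x - y) (h23 : r = 2 → s = 3 → ¬ (3 : ℤ) ∣ x + y) :
    ∃ m : ℕ, ¬ s ∣ m ∧ ∀ n : ℕ, n ≡ m [MOD s] →
      ¬ (s : ℤ) ∣ gs r ((n : ℤ) * x) ((n : ℤ) * y) + ((r : ℤ) ^ 2 - 1) := by
  have : Fact s.Prime := ⟨hs⟩
  have : Fact r.Prime := ⟨hr⟩
  have hr0 : (r : ZMod s) ≠ 0 := by
    intro h
    rw [ZMod.natCast_eq_zero_iff] at h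
    exact hrs ((Nat.prime_dvd_prime_iff_eq hs hr).mp h).symm
  -- reduction to a statement in the field
  have key : ∀ (m n : ℕ), n ≡ m [MOD s] →
      ((gs r ((n : ℤ) * x) ((n : ℤ) * y) + ((r : ℤ) ^ 2 - 1) : ℤ) : ZMod s) =
        (m : ZMod s) ^ (r - 1) * ((gs r x y : ℤ) : ZMod s) + ((r : ZMod s) ^ 2 - 1) := by
    intro m n h
    rw [gs_scale hr.pos]
    have h1 : (n : ZMod s) = m := (ZMod.natCast_eq_natCast_iff n m s).mpr h
    push_cast
    rw [h1]
  have hne : ((x - y : ℤ) : ZMod s) ≠ 0 := by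
    rwa [Ne, ZMod.intCast_zmod_eq_zero_iff_dvd]
  have hg : ((x - y : ℤ) : ZMod s) * ((gs r x y : ℤ) : ZMod s) =
      (x : ZMod s) ^ r - (y : ZMod s) ^ r := by
    have := gs_mul r x y
    have h1 : (((x - y) * gs r x y : ℤ) : ZMod s) = ((x ^ r - y ^ r : ℤ) : ZMod s) := by rw [this]
    push_cast at h1 ⊢
    exact h1
  suffices h : ∃ m : ℕ, ¬ s ∣ m ∧ (m : ZMod s) ^ (r - 1) * ((gs r x y : ℤ) : ZMod s) +
      ((r : ZMod s) ^ 2 - 1) ≠ 0 by
    obtain ⟨m, h1, h2⟩ := h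
    refine ⟨m, h1, fun n hn h3 => h2 ?_⟩
    rw [← key m n hn]
    rwa [ZMod.intCast_zmod_eq_zero_iff_dvd]
  set S : ZMod s := ((gs r x y : ℤ) : ZMod s) with hS
  by_cases hd : s - 1 ∣ r - 1
  · -- `x ^ r = x` in the field
    have hp : ∀ z : ZMod s, z ^ r = z := by
      intro z
      obtain ⟨k, hk⟩ := hd
      have h1 : r = (s - 1) * k + 1 := by have := hr.pos; omega
      by_cases hz : z = 0
      · rw [hz, zero_pow hr.ne_zero]
      · rw [h1, pow_succ, pow_mul, ZMod.pow_card_sub_one_eq_one hz, one_pow, one_mul]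
    have hS1 : S = 1 := by
      rw [hp, hp] at hg
      have h2 : ((x - y : ℤ) : ZMod s) * S = ((x - y : ℤ) : ZMod s) * 1 := by
        rw [hg, mul_one]
        push_cast
        rfl
      exact mul_left_cancel₀ hne h2
    refine ⟨1, ?_, ?_⟩
    · intro h
      exact hs.one_lt.ne' (Nat.dvd_one.mp h)
    · rw [hS1, Nat.cast_one, one_pow, one_mul]
      have : (1 : ZMod s) + ((r : ZMod s) ^ 2 - 1) = (r : ZMod s) ^ 2 := by ring
      rw [this]
      exact pow_ne_zero 2 hr0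
  · by_cases h0 : S + ((r : ZMod s) ^ 2 - 1) = 0
    · have hS0 : S ≠ 0 := by
        intro hS0
        rw [hS0, zero_add, sub_eq_zero] at h0
        rw [hS0, mul_zero, eq_comm, sub_eq_zero] at hg
        have hxy' : (x : ZMod s) ≠ (y : ZMod s) := by
          intro h
          apply hne
          push_cast
          rw [h, sub_self]
        have hy0 : (y : ZMod s) ≠ 0 := by
          intro h
          rw [h, zero_pow hr.ne_zero] at hg
          exact hxy' ((pow_eq_zero_iff hr.ne_zero).mp hg |>.trans h.symm)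
        have ho : orderOf ((x : ZMod s) / y) = r := by
          apply orderOf_eq_prime
          · rw [div_pow, hg, div_self (pow_ne_zero r hy0)]
          · intro h
            exact hxy' ((div_eq_one_iff_eq hy0).mp h)
        have hx0 : (x : ZMod s) ≠ 0 := by
          intro h
          rw [h, zero_pow hr.ne_zero] at hg
          exact hy0 ((pow_eq_zero_iff hr.ne_zero).mp hg.symm)
        have h1 : r ∣ s - 1 := by
          rw [← ho]
          exact orderOf_dvd_of_pow_eq_one (ZMod.pow_card_sub_one_eq_one (div_ne_zero hx0 hy0))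
        have h2 : r ≤ s - 1 := Nat.le_of_dvd (by have := hs.two_le; omega) h1
        have h3 : (((r : ℤ) ^ 2 - 1 : ℤ) : ZMod s) = 0 := by
          push_cast
          rw [sub_eq_zero]
          exact h0
        rw [ZMod.intCast_zmod_eq_zero_iff_dvd] at h3
        have h4 : ((s : ℕ) : ℤ) ∣ ((r : ℤ) - 1) * (r + 1) := by
          have : ((r : ℤ) - 1) * (r + 1) = (r : ℤ) ^ 2 - 1 := by ring
          rwa [this]
        have hsp : Prime (s : ℤ) := Nat.prime_iff_prime_int.mp hs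
        have h2r := hr.two_le
        have h5 : s = r + 1 := by
          rcases hsp.dvd_or_dvd h4 with h | h
          · exfalso
            have := Int.le_of_dvd (by omega) h
            omega
          · have h6 := Int.le_of_dvd (by omega) h
            have : s - 1 ≤ r := by omega
            omega
        have h6 : r = 2 ∧ s = 3 := by
          rcases hr.eq_two_or_odd with h | h
          · exact ⟨h, by omega⟩
          · rcases hs.eq_two_or_odd with h' | h'
            · omega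
            · omega
        obtain ⟨rfl, rfl⟩ := h6
        apply h23 rfl rfl
        have h7 : ((x - y : ℤ) : ZMod 3) * ((x + y : ℤ) : ZMod 3) = 0 := by
          push_cast
          have : ((x : ZMod 3) - y) * (x + y) = (x : ZMod 3) ^ 2 - (y : ZMod 3) ^ 2 := by ring
          rw [this, hg, sub_self]
        have h8 := (mul_eq_zero.mp h7).resolve_left hne
        have h9 := (ZMod.intCast_zmod_eq_zero_iff_dvd (x + y) 3).mp h8
        exact_mod_cast h9
      -- a unit whose power is not one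
      obtain ⟨g, hg1⟩ := IsCyclic.exists_generator (α := (ZMod s)ˣ)
      have hgo : orderOf g = s - 1 := by
        rw [orderOf_eq_card_of_forall_mem_zpowers hg1, Nat.card_eq_fintype_card, ZMod.card_units]
      have hg2 : g ^ (r - 1) ≠ 1 := by
        intro h
        exact hd (hgo ▸ orderOf_dvd_of_pow_eq_one h)
      refine ⟨(g : ZMod s).val, ?_, ?_⟩
      · intro h
        have h1 : (((g : ZMod s).val : ℕ) : ZMod s) = 0 := (ZMod.natCast_eq_zero_iff _ _).mpr h
        rw [ZMod.natCast_zmod_val] at h1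
        exact g.ne_zero h1
      · rw [ZMod.natCast_zmod_val]
        intro h
        have h1 : ((g : ZMod s) ^ (r - 1) - 1) * S = 0 := by
          have : ((g : ZMod s) ^ (r - 1) - 1) * S = ((g : ZMod s) ^ (r - 1) * S +
              ((r : ZMod s) ^ 2 - 1)) - (S + ((r : ZMod s) ^ 2 - 1)) := by ring
          rw [this, h, h0, sub_zero]
        rcases mul_eq_zero.mp h1 with h2 | h2
        · apply hg2
          apply Units.ext
          rw [Units.val_pow_eq_pow_val, Units.val_one]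
          exact sub_eq_zero.mp h2
        · exact hS0 h2
    · refine ⟨1, ?_, ?_⟩
      · intro h
        exact hs.one_lt.ne' (Nat.dvd_one.mp h)
      · rwa [Nat.cast_one, one_pow, one_mul]

/-- A set of pairs of integers closed under multiplication with numbers prime to `p` and under the
polynomials of the wreath products. -/
structure Cl (p : ℕ) (S : Set (ℤ × ℤ)) : Prop where
  mul : ∀ x y : ℤ, (x, y) ∈ S → ∀ m : ℕ, 0 < m → ¬ p ∣ m → ((m : ℤ) * x, (m : ℤ) * y) ∈ S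
  wr : ∀ x y : ℤ, (x, y) ∈ S → ∀ q : ℕ, q.Prime → ∃ x' y' : ℤ, (x', y') ∈ S ∧
    (q : ℤ) * x' = x ^ q + cc q p * x ∧ (q : ℤ) * y' = y ^ q + cc q p * y

/-- one reduction -/
theorem reduce {p : ℕ} (hp : p.Prime) {S : Set (ℤ × ℤ)} (hS : Cl p S) {r : ℕ} (hr : r.Prime)
    (R : Finset ℕ) (hR : ∀ s ∈ R, s.Prime) (hrR : r ∉ R) {x y : ℤ} (hxy : (x, y) ∈ S)
    (hsR : ∀ s ∈ R, ¬ (s : ℤ) ∣ x - y)
    (hu : ∀ s ∈ R, ∃ m : ℕ, ¬ s ∣ m ∧ ∀ n : ℕ, n ≡ m [MOD s] →
      ¬ (s : ℤ) ∣ gs r ((n : ℤ) * x) ((n : ℤ) * y) + cc r p)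
    (hd : (r : ℤ) ∣ x - y) :
    ∃ x' y' n : ℤ, (x', y') ∈ S ∧ (∀ s ∈ R, ¬ (s : ℤ) ∣ x' - y') ∧
      (∀ e : ℕ, (r : ℤ) ^ e ∣ x' - y' → (r : ℤ) ^ (e + 1) ∣ x - y) ∧
      (∀ s ∈ R, ¬ (s : ℤ) ∣ n) ∧
      (r : ℤ) * x' = (n * x) ^ r + cc r p * (n * x) ∧
      (r : ℤ) * y' = (n * y) ^ r + cc r p * (n * y) := by
  choose! m hm hm' using hu
  -- the multiplier
  let T : Finset ℕ := insert p (insert r R)
  have hT : ∀ s ∈ T, s.Prime := by
    intro s hs
    rcases Finset.mem_insert.mp hs with rfl | h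
    · exact hp
    · rcases Finset.mem_insert.mp h with rfl | h
      · exact hr
      · exact hR s h
  let a : ℕ → ℕ := fun s => if s ∈ R then m s else 1
  obtain ⟨n, hn⟩ := Nat.chineseRemainderOfFinset a id T (fun i hi => (hT i hi).ne_zero)
    (fun i hi j hj hij => (Nat.coprime_primes (hT i hi) (hT j hj)).mpr hij)
  have hnR : ∀ s ∈ R, n ≡ m s [MOD s] := by
    intro s hs
    have h := hn s (Finset.mem_insert_of_mem (Finset.mem_insert_of_mem hs))
    have h2 : a s = m s := if_pos hs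
    rwa [h2] at h
  have hnr : ¬ r ∣ n := by
    have h := hn r (Finset.mem_insert_of_mem (Finset.mem_insert_self _ _))
    have h2 : a r = 1 := if_neg hrR
    rw [h2] at h
    intro h3
    have h4 : (1 : ℕ) ≡ 0 [MOD r] := h.symm.trans ((Nat.modEq_zero_iff_dvd).mpr h3)
    exact hr.one_lt.ne' (Nat.dvd_one.mp ((Nat.modEq_zero_iff_dvd).mp h4))
  have hnR' : ∀ s ∈ R, ¬ s ∣ n := by
    intro s hs h3
    exact hm s hs ((Nat.modEq_zero_iff_dvd).mp ((hnR s hs).symm.trans
      ((Nat.modEq_zero_iff_dvd).mpr h3)))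
  have hnp : ¬ p ∣ n := by
    by_cases h : p ∈ R
    · exact hnR' p h
    · by_cases h' : p = r
      · rw [h']
        exact hnr
      · have h1 := hn p (Finset.mem_insert_self _ _)
        have h2 : a p = 1 := if_neg h
        rw [h2] at h1
        intro h3
        have h4 : (1 : ℕ) ≡ 0 [MOD p] := h1.symm.trans ((Nat.modEq_zero_iff_dvd).mpr h3)
        exact hp.one_lt.ne' (Nat.dvd_one.mp ((Nat.modEq_zero_iff_dvd).mp h4))
  have hn0 : 0 < n := Nat.pos_of_ne_zero fun h => hnr (h ▸ dvd_zero r)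
  obtain ⟨x', y', h1, h2, h3⟩ := hS.wr _ _ (hS.mul x y hxy n hn0 hnp) r hr
  have hmain : (r : ℤ) * (x' - y') = ((n : ℤ) * (x - y)) *
      (gs r ((n : ℤ) * x) ((n : ℤ) * y) + cc r p) := by
    have h4 := gs_mul r ((n : ℤ) * x) ((n : ℤ) * y)
    rw [mul_sub, h2, h3]
    linear_combination -h4
  have hri : Prime (r : ℤ) := Nat.prime_iff_prime_int.mp hr
  refine ⟨x', y', n, h1, ?_, ?_, ?_, h2, h3⟩
  · intro s hs h5
    have hsi : Prime (s : ℤ) := Nat.prime_iff_prime_int.mp (hR s hs)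
    have h6 : (s : ℤ) ∣ ((n : ℤ) * (x - y)) * (gs r ((n : ℤ) * x) ((n : ℤ) * y) + cc r p) := by
      rw [← hmain]
      exact h5.mul_left _
    rcases hsi.dvd_or_dvd h6 with h7 | h7
    · rcases hsi.dvd_or_dvd h7 with h8 | h8
      · exact hnR' s hs (Int.natCast_dvd_natCast.mp h8)
      · exact hsR s hs h8
    · exact hm' s hs n (hnR s hs) h7
  · intro e he
    have h5 : (r : ℤ) ∣ gs r ((n : ℤ) * x) ((n : ℤ) * y) := by
      unfold gs
      apply dvd_geom_sum₂_self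
      rw [← mul_sub]
      exact hd.mul_left _
    have h6 : IsCoprime (gs r ((n : ℤ) * x) ((n : ℤ) * y) + cc r p) (r : ℤ) := by
      obtain ⟨k, hk⟩ := h5
      rw [hk]
      unfold cc
      split_ifs
      · exact ⟨-1, k, by ring⟩
      · exact ⟨-1, (r : ℤ) + k, by ring⟩
    have h7 : (r : ℤ) ^ (e + 1) ∣ ((n : ℤ) * (x - y)) *
        (gs r ((n : ℤ) * x) ((n : ℤ) * y) + cc r p) := by
      rw [← hmain, pow_succ']
      exact mul_dvd_mul_left _ he
    have h8 : (r : ℤ) ^ (e + 1) ∣ (n : ℤ) * (x - y) := (h6.symm.pow_left).dvd_of_dvd_mul_right h7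
    have h9 : IsCoprime ((r : ℤ) ^ (e + 1)) (n : ℤ) := by
      apply IsCoprime.pow_left
      rw [Int.isCoprime_iff_gcd_eq_one, Int.gcd_natCast_natCast]
      exact (Nat.Prime.coprime_iff_not_dvd hr).mpr hnr
    exact h9.dvd_of_dvd_mul_left h8
  · intro s hs h5
    exact hnR' s hs (Int.natCast_dvd_natCast.mp h5)

/-- the case `r ≠ p`: all reductions -/
theorem reduce_all {p : ℕ} (hp : p.Prime) {S : Set (ℤ × ℤ)} (hS : Cl p S) {r : ℕ} (hr : r.Prime)
    (hrp : r ≠ p) (R : Finset ℕ) (hR : ∀ s ∈ R, s.Prime) (hrR : r ∉ R) : ∀ (e : ℕ) {x y : ℤ},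
    (x, y) ∈ S → (∀ s ∈ R, ¬ (s : ℤ) ∣ x - y) → (r = 2 → 3 ∈ R → ¬ (3 : ℤ) ∣ x + y) →
    ¬ (r : ℤ) ^ e ∣ x - y →
    ∃ x' y' : ℤ, (x', y') ∈ S ∧ (∀ s ∈ R, ¬ (s : ℤ) ∣ x' - y') ∧ ¬ (r : ℤ) ∣ x' - y' := by
  intro e
  induction e with
  | zero =>
    intro x y _ _ _ h
    exact absurd (by rw [pow_zero]; exact one_dvd _) h
  | succ e ih =>
    intro x y hxy hsR h3 he
    by_cases hd : (r : ℤ) ∣ x - y
    · have hcc : cc r p = (r : ℤ) ^ 2 - 1 := if_neg hrp
      obtain ⟨x', y', n, h1, h2, h4, h5, h6, h7⟩ := reduce hp hS hr R hR hrR hxy hsR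
        (fun s hs => by
          rw [hcc]
          refine exists_unit hr (hR s hs) (fun h => hrR (h ▸ hs)) (hsR s hs) ?_
          rintro rfl rfl
          exact h3 rfl hs) hd
      refine ih h1 h2 ?_ fun h => he (h4 e h)
      rintro rfl h3R
      have h8 := h3 rfl h3R
      have h9 := hsR 3 h3R
      have h10 := h5 3 h3R
      rw [hcc] at h6 h7
      intro h11
      have hd3 : ((3 : ℕ) : ℤ) = 3 := rfl
      rw [hd3] at h9 h10
      -- everything modulo three
      obtain ⟨k, hk⟩ := h11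
      have hk2 : (n * x) ^ 2 + (n * y) ^ 2 = 3 * (2 * k - n * x - n * y) := by
        have e1 : (2 : ℤ) * x' = (n * x) ^ 2 + ((2 : ℤ) ^ 2 - 1) * (n * x) := h6
        have e2 : (2 : ℤ) * y' = (n * y) ^ 2 + ((2 : ℤ) ^ 2 - 1) * (n * y) := h7
        linear_combination (-1) * e1 + (-1) * e2 + 2 * hk
      have hx3 : n * x % 3 = 0 ∨ n * x % 3 = 1 ∨ n * x % 3 = 2 := by omega
      have hy3 : n * y % 3 = 0 ∨ n * y % 3 = 1 ∨ n * y % 3 = 2 := by omega
      have hsq : ((n * x) ^ 2 + (n * y) ^ 2) % 3 = 0 := by omega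
      have hmod : ((n * x % 3) ^ 2 + (n * y % 3) ^ 2) % 3 = 0 := by
        rw [← hsq]
        exact ((Int.mod_modEq (n * x) 3).pow 2).add ((Int.mod_modEq (n * y) 3).pow 2)
      have hboth : n * x % 3 = 0 ∧ n * y % 3 = 0 := by
        rcases hx3 with h | h | h <;> rcases hy3 with h' | h' | h' <;> rw [h, h'] at hmod <;>
          norm_num at hmod
        exact ⟨h, h'⟩
      have h12 : (3 : ℤ) ∣ n * (x - y) := by
        rw [mul_sub]
        exact dvd_sub (Int.dvd_of_emod_eq_zero hboth.1) (Int.dvd_of_emod_eq_zero hboth.2)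
      have h3p : Prime (3 : ℤ) := Int.prime_three
      rcases h3p.dvd_or_dvd h12 with h | h
      · exact h10 h
      · exact h9 h
    · exact ⟨x, y, hxy, hsR, hd⟩

/-- a nonzero number is not divisible by all powers -/
theorem exists_not_pow {r : ℕ} (hr : r.Prime) {d : ℤ} (hd : d ≠ 0) : ∃ e : ℕ, ¬ (r : ℤ) ^ e ∣ d := by
  refine ⟨d.natAbs, fun h => ?_⟩
  have h1 := Int.natAbs_dvd_natAbs.mpr h
  rw [Int.natAbs_pow, Int.natAbs_natCast] at h1
  have h2 := Nat.le_of_dvd (Int.natAbs_pos.mpr hd) h1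
  exact absurd (Nat.lt_pow_self hr.one_lt (n := d.natAbs)) (not_lt.mpr h2)

/-- the reductions at `p` -/
theorem reduce_p {p : ℕ} (hp : p.Prime) {S : Set (ℤ × ℤ)} (hS : Cl p S) : ∀ (e : ℕ) {x y : ℤ},
    (x, y) ∈ S → ¬ (p : ℤ) ^ e ∣ x - y → ∃ x' y' : ℤ, (x', y') ∈ S ∧ ¬ (p : ℤ) ∣ x' - y' := by
  intro e
  induction e with
  | zero =>
    intro x y _ h
    exact absurd (by rw [pow_zero]; exact one_dvd _) h
  | succ e ih =>
    intro x y hxy he
    by_cases hd : (p : ℤ) ∣ x - y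
    · obtain ⟨x', y', n, h1, h2, h4, h5, h6, h7⟩ := reduce hp hS hp ∅ (by simp) (by simp) hxy
        (by simp) (by simp) hd
      exact ih h1 fun h => he (h4 e h)
    · exact ⟨x, y, hxy, hd⟩

/-- the polynomial of the case `p = 3` -/
theorem exists_mul_nine : ∀ a b : ZMod 9, 3 * (a ^ 2 - b ^ 2) = 0 → ∃ m : ZMod 9,
    (m = 1 ∨ m = 2 ∨ m = 4) ∧ ((m * a) ^ 2) ^ 2 + (m * a) ^ 2 * (m * b) ^ 2 + ((m * b) ^ 2) ^ 2 -
      2 * ((m * a) ^ 2 + (m * b) ^ 2) + 1 ≠ 0 := by
  decide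

theorem exists_mul_nine' {x y : ℤ} (h : (3 : ℤ) ∣ x ^ 2 - y ^ 2) : ∃ m : ℕ, 0 < m ∧ ¬ 3 ∣ m ∧
    ¬ (9 : ℤ) ∣ (((m : ℤ) * x) ^ 2) ^ 2 + ((m : ℤ) * x) ^ 2 * ((m : ℤ) * y) ^ 2 +
      (((m : ℤ) * y) ^ 2) ^ 2 - 2 * (((m : ℤ) * x) ^ 2 + ((m : ℤ) * y) ^ 2) + 1 := by
  have h1 : (3 : ZMod 9) * ((x : ZMod 9) ^ 2 - (y : ZMod 9) ^ 2) = 0 := by
    obtain ⟨k, hk⟩ := h
    have h2 : ((x ^ 2 - y ^ 2 : ℤ) : ZMod 9) = ((3 * k : ℤ) : ZMod 9) := by rw [hk]
    push_cast at h2
    rw [h2, ← mul_assoc]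
    have : (3 : ZMod 9) * 3 = 0 := by decide
    rw [this, zero_mul]
  obtain ⟨m, hm, h2⟩ := exists_mul_nine x y h1
  have key : ∀ n : ℕ, (n : ZMod 9) = m → ¬ (9 : ℤ) ∣ (((n : ℤ) * x) ^ 2) ^ 2 +
      ((n : ℤ) * x) ^ 2 * ((n : ℤ) * y) ^ 2 +
      (((n : ℤ) * y) ^ 2) ^ 2 - 2 * (((n : ℤ) * x) ^ 2 + ((n : ℤ) * y) ^ 2) + 1 := by
    intro n hn h3
    apply h2
    have h4 := (ZMod.intCast_zmod_eq_zero_iff_dvd _ 9).mpr (by exact_mod_cast h3)
    rw [← hn]
    push_cast at h4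
    exact h4
  rcases hm with h3 | h3 | h3
  · exact ⟨1, by norm_num, by norm_num, key 1 (by rw [h3]; norm_num)⟩
  · exact ⟨2, by norm_num, by norm_num, key 2 (by rw [h3]; norm_num)⟩
  · exact ⟨4, by norm_num, by norm_num, key 4 (by rw [h3]; norm_num)⟩

theorem three_step {a b F : ℤ} {e : ℕ} (hF : ¬ (9 : ℤ) ∣ F) (h : (3 : ℤ) ^ (e + 2) ∣ a * F)
    (hab : a = b) : (3 : ℤ) ^ (e + 1) ∣ b := by
  subst hab
  have h3 : Prime (3 : ℤ) := Int.prime_three
  by_cases h1 : (3 : ℤ) ∣ F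
  · obtain ⟨F', rfl⟩ := h1
    have h2 : ¬ (3 : ℤ) ∣ F' := fun h4 => hF (by
      obtain ⟨k, rfl⟩ := h4
      exact ⟨k, by ring⟩)
    have h5 : (3 : ℤ) ^ (e + 1) ∣ a * F' := by
      have : (3 : ℤ) * 3 ^ (e + 1) ∣ 3 * (a * F') := by
        have h7 : (3 : ℤ) * 3 ^ (e + 1) = 3 ^ (e + 2) := by ring
        have h8 : 3 * (a * F') = a * (3 * F') := by ring
        rw [h7, h8]
        exact h
      exact (mul_dvd_mul_iff_left (by norm_num)).mp this
    have h6 : IsCoprime ((3 : ℤ) ^ (e + 1)) F' :=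
      IsCoprime.pow_left ((Prime.coprime_iff_not_dvd h3).mpr h2)
    exact h6.dvd_of_dvd_mul_right h5
  · have h6 : IsCoprime ((3 : ℤ) ^ (e + 2)) F :=
      IsCoprime.pow_left ((Prime.coprime_iff_not_dvd h3).mpr h1)
    exact (pow_dvd_pow 3 (by omega)).trans (h6.dvd_of_dvd_mul_right h)

/-- the reductions for `p = 3` -/
theorem reduce_three {S : Set (ℤ × ℤ)} (hS : Cl 3 S) : ∀ (e : ℕ) {x y : ℤ},
    (x, y) ∈ S → ¬ (3 : ℤ) ^ e ∣ x ^ 2 - y ^ 2 →
    ∃ x' y' : ℤ, (x', y') ∈ S ∧ ¬ (3 : ℤ) ∣ x' ^ 2 - y' ^ 2 := by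
  intro e
  induction e with
  | zero =>
    intro x y _ h
    exact absurd (by rw [pow_zero]; exact one_dvd _) h
  | succ e ih =>
    intro x y hxy he
    by_cases hd : (3 : ℤ) ∣ x ^ 2 - y ^ 2
    · obtain ⟨m, hm0, hm3, hF⟩ := exists_mul_nine' hd
      obtain ⟨x', y', h1, h2, h3⟩ := hS.wr _ _ (hS.mul x y hxy m hm0 hm3) 3 Nat.prime_three
      have hcc : cc 3 3 = -1 := if_pos rfl
      rw [hcc] at h2 h3
      push_cast at h2 h3
      refine ih h1 fun h4 => he ?_
      have h5 : (3 : ℤ) ^ (e + 2) ∣ (((m : ℤ) * x) ^ 2 - ((m : ℤ) * y) ^ 2) *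
          ((((m : ℤ) * x) ^ 2) ^ 2 + ((m : ℤ) * x) ^ 2 * ((m : ℤ) * y) ^ 2 +
            (((m : ℤ) * y) ^ 2) ^ 2 - 2 * (((m : ℤ) * x) ^ 2 + ((m : ℤ) * y) ^ 2) + 1) := by
        have h6 : (((m : ℤ) * x) ^ 2 - ((m : ℤ) * y) ^ 2) *
          ((((m : ℤ) * x) ^ 2) ^ 2 + ((m : ℤ) * x) ^ 2 * ((m : ℤ) * y) ^ 2 +
            (((m : ℤ) * y) ^ 2) ^ 2 - 2 * (((m : ℤ) * x) ^ 2 + ((m : ℤ) * y) ^ 2) + 1) =
            3 ^ 2 * (x' ^ 2 - y' ^ 2) := by
          have h7 : (3 : ℤ) ^ 2 * (x' ^ 2 - y' ^ 2) = (3 * x') ^ 2 - (3 * y') ^ 2 := by ring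
          rw [h7, h2, h3]
          ring
        rw [h6, add_comm e 2, pow_add]
        exact mul_dvd_mul_left _ h4
      have h6 := three_step (b := (m : ℤ) ^ 2 * (x ^ 2 - y ^ 2)) hF h5 (by ring)
      have h7 : IsCoprime ((3 : ℤ) ^ (e + 1)) ((m : ℤ) ^ 2) := by
        apply IsCoprime.pow
        rw [Prime.coprime_iff_not_dvd Int.prime_three]
        exact fun h => hm3 (by exact_mod_cast h)
      exact h7.dvd_of_dvd_mul_left h6
    · exact ⟨x, y, hxy, hd⟩

/-- a pair with odd difference not divisible by `p` -/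
theorem base {p : ℕ} (hp : p.Prime) {S : Set (ℤ × ℤ)} (hS : Cl p S) {x y : ℤ} (hxy : (x, y) ∈ S)
    (hne : x ≠ y) : ∃ x' y' : ℤ, (x', y') ∈ S ∧ ¬ (p : ℤ) ∣ x' - y' ∧ ¬ (2 : ℤ) ∣ x' - y' := by
  by_cases h3 : p = 3
  · subst h3
    -- different absolute values
    obtain ⟨x1, y1, h1, h2⟩ : ∃ x1 y1 : ℤ, (x1, y1) ∈ S ∧ x1 ^ 2 - y1 ^ 2 ≠ 0 := by
      by_cases h : x = -y
      · obtain ⟨x', y', h1, h2, h3⟩ := hS.wr _ _ hxy 2 Nat.prime_two
        have hcc : cc 2 3 = 3 := by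
          unfold cc
          norm_num
        rw [hcc] at h2 h3
        push_cast at h2 h3
        refine ⟨x', y', h1, ?_⟩
        have hy0 : y ≠ 0 := by
          intro h0
          exact hne (by rw [h, h0, neg_zero])
        have h4 : 4 * (x' ^ 2 - y' ^ 2) = -12 * y ^ 3 := by
          have h5 : 4 * (x' ^ 2 - y' ^ 2) = (2 * x') ^ 2 - (2 * y') ^ 2 := by ring
          rw [h5, h2, h3, h]
          ring
        intro h5
        rw [h5, mul_zero] at h4
        exact pow_ne_zero 3 hy0 (by linarith)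
      · refine ⟨x, y, hxy, ?_⟩
        have h1 : x ^ 2 - y ^ 2 = (x - y) * (x + y) := by ring
        rw [h1]
        exact mul_ne_zero (sub_ne_zero.mpr hne) (fun h0 => h (by linarith))
    obtain ⟨e, he⟩ := exists_not_pow Nat.prime_three h2
    obtain ⟨x2, y2, h4, h5⟩ := reduce_three hS e h1 (by exact_mod_cast he)
    have h6 : x2 ^ 2 - y2 ^ 2 = (x2 - y2) * (x2 + y2) := by ring
    rw [h6] at h5
    have h7 : ¬ (3 : ℤ) ∣ x2 - y2 := fun h => h5 (h.mul_right _)
    have h8 : ¬ (3 : ℤ) ∣ x2 + y2 := fun h => h5 (h.mul_left _)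
    have h9 : x2 - y2 ≠ 0 := fun h => h7 (h ▸ dvd_zero _)
    obtain ⟨e', he'⟩ := exists_not_pow Nat.prime_two h9
    obtain ⟨x3, y3, h10, h11, h12⟩ := reduce_all hp hS Nat.prime_two (by norm_num) {3}
      (by intro s hs; rw [Finset.mem_singleton.mp hs]; exact Nat.prime_three)
      (by norm_num) e' h4 (by intro s hs; rw [Finset.mem_singleton.mp hs]; exact_mod_cast h7)
      (fun _ _ => h8) he'
    exact ⟨x3, y3, h10, h11 3 (Finset.mem_singleton_self 3), h12⟩
  · obtain ⟨e, he⟩ := exists_not_pow hp (sub_ne_zero.mpr hne)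
    obtain ⟨x1, y1, h1, h2⟩ := reduce_p hp hS e hxy he
    by_cases hp2 : p = 2
    · subst hp2
      exact ⟨x1, y1, h1, h2, h2⟩
    · have h9 : x1 - y1 ≠ 0 := fun h => h2 (h ▸ dvd_zero _)
      obtain ⟨e', he'⟩ := exists_not_pow Nat.prime_two h9
      obtain ⟨x3, y3, h10, h11, h12⟩ := reduce_all hp hS Nat.prime_two (Ne.symm hp2) {p}
        (by intro s hs; rw [Finset.mem_singleton.mp hs]; exact hp)
        (by rw [Finset.mem_singleton]; exact Ne.symm hp2) e' h1
        (by intro s hs; rw [Finset.mem_singleton.mp hs]; exact h2)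
        (fun _ h => absurd (Finset.mem_singleton.mp h).symm h3) he'
      exact ⟨x3, y3, h10, h11 p (Finset.mem_singleton_self p), h12⟩

/-- **a pair whose difference is prime to a given number** -/
theorem coprime_all {p : ℕ} (hp : p.Prime) {S : Set (ℤ × ℤ)} (hS : Cl p S) {x y : ℤ}
    (hxy : (x, y) ∈ S) (hne : x ≠ y) (R : Finset ℕ) : (∀ s ∈ R, s.Prime) →
    ∃ x' y' : ℤ, (x', y') ∈ S ∧ ∀ s ∈ insert p (insert 2 R), ¬ (s : ℤ) ∣ x' - y' := by
  induction R using Finset.induction_on with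
  | empty =>
    intro _
    obtain ⟨x', y', h1, h2, h3⟩ := base hp hS hxy hne
    refine ⟨x', y', h1, fun s hs => ?_⟩
    rcases Finset.mem_insert.mp hs with rfl | h
    · exact h2
    · rcases Finset.mem_insert.mp h with rfl | h
      · exact h3
      · simp at h
  | insert r R hr ih =>
    intro hR
    obtain ⟨x', y', h1, h2⟩ := ih fun s hs => hR s (Finset.mem_insert_of_mem hs)
    by_cases hrR : r ∈ insert p (insert 2 R)
    · refine ⟨x', y', h1, fun s hs => ?_⟩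
      apply h2
      rcases Finset.mem_insert.mp hs with rfl | h
      · exact Finset.mem_insert_self _ _
      · rcases Finset.mem_insert.mp h with rfl | h
        · exact Finset.mem_insert_of_mem (Finset.mem_insert_self _ _)
        · rcases Finset.mem_insert.mp h with rfl | h
          · exact hrR
          · exact Finset.mem_insert_of_mem (Finset.mem_insert_of_mem h)
    · have hrp : r ≠ p := fun h => hrR (h ▸ Finset.mem_insert_self _ _)
      have hr2 : r ≠ 2 := fun h => hrR (by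
        rw [h]
        exact Finset.mem_insert_of_mem (Finset.mem_insert_self _ _))
      have hrp' : r.Prime := hR r (Finset.mem_insert_self _ _)
      have hR' : ∀ s ∈ insert p (insert 2 R), s.Prime := by
        intro s hs
        rcases Finset.mem_insert.mp hs with rfl | h
        · exact hp
        · rcases Finset.mem_insert.mp h with rfl | h
          · exact Nat.prime_two
          · exact hR s (Finset.mem_insert_of_mem h)
      have h9 : x' - y' ≠ 0 := fun h => h2 p (Finset.mem_insert_self _ _) (h ▸ dvd_zero _)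
      obtain ⟨e, he⟩ := exists_not_pow hrp' h9
      obtain ⟨x2, y2, h3, h4, h5⟩ := reduce_all hp hS hrp' hrp _ hR' hrR e h1 h2
        (fun h => absurd h hr2) he
      refine ⟨x2, y2, h3, fun s hs => ?_⟩
      rcases Finset.mem_insert.mp hs with rfl | h
      · exact h4 _ (Finset.mem_insert_self _ _)
      · rcases Finset.mem_insert.mp h with rfl | h
        · exact h4 _ (Finset.mem_insert_of_mem (Finset.mem_insert_self _ _))
        · rcases Finset.mem_insert.mp h with rfl | h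
          · exact h5
          · exact h4 _ (Finset.mem_insert_of_mem (Finset.mem_insert_of_mem h))

/-- **every residue class is attained** -/
theorem residue {p : ℕ} (hp : p.Prime) {S : Set (ℤ × ℤ)} (hS : Cl p S) {x y : ℤ}
    (hxy : (x, y) ∈ S) (hne : x ≠ y) {N : ℕ} (hN : 0 < N) (u : ℤ) (hu : p ∣ N → ¬ (p : ℤ) ∣ u) :
    ∃ x' y' : ℤ, (x', y') ∈ S ∧ (N : ℤ) ∣ (x' - y') - u := by
  obtain ⟨x1, y1, h1, h2⟩ := coprime_all hp hS hxy hne N.primeFactors
    fun s hs => Nat.prime_of_mem_primeFactors hs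
  have hc : IsCoprime (x1 - y1) (N : ℤ) := by
    rw [Int.isCoprime_iff_gcd_eq_one]
    by_contra h
    obtain ⟨s, hs, hs'⟩ := Nat.exists_prime_and_dvd h
    have h3 : (s : ℤ) ∣ x1 - y1 := (Int.natCast_dvd_natCast.mpr hs').trans (Int.gcd_dvd_left _ _)
    have h4 : (s : ℤ) ∣ (N : ℤ) := (Int.natCast_dvd_natCast.mpr hs').trans (Int.gcd_dvd_right _ _)
    exact h2 s (Finset.mem_insert_of_mem (Finset.mem_insert_of_mem
      (Nat.mem_primeFactors.mpr ⟨hs, Int.natCast_dvd_natCast.mp h4, hN.ne'⟩))) h3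
  -- the multiplier
  obtain ⟨a, b, hab⟩ := hc
  have hmul : ∃ m : ℕ, 0 < m ∧ ¬ p ∣ m ∧ (N : ℤ) ∣ (m : ℤ) - a * u := by
    by_cases hpN : p ∣ N
    · refine ⟨((a * u) % N + N).toNat, ?_, ?_, ?_⟩
      · have := Int.emod_nonneg (a * u) (show (N : ℤ) ≠ 0 by exact_mod_cast hN.ne')
        have hN' : (0 : ℤ) < N := by exact_mod_cast hN
        omega
      · intro h
        have h0 : 0 ≤ (a * u) % N + N := by
          have := Int.emod_nonneg (a * u) (show (N : ℤ) ≠ 0 by exact_mod_cast hN.ne')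
          omega
        have h3 : (p : ℤ) ∣ (a * u) % N + N := by
          rw [← Int.toNat_of_nonneg h0]
          exact_mod_cast h
        have hpN' : (p : ℤ) ∣ N := by exact_mod_cast hpN
        have h4 : (p : ℤ) ∣ a * u := by
          have h5 : a * u = ((a * u) % N + N) + N * (a * u / N - 1) := by
            have := Int.emod_add_mul_ediv (a * u) N
            linear_combination -this
          rw [h5]
          exact dvd_add h3 (hpN'.mul_right _)
        have h6 : (p : ℤ) ∣ (x1 - y1) * (a * u) := h4.mul_left _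
        have h7 : (x1 - y1) * (a * u) = u - b * N * u := by linear_combination u * hab
        rw [h7] at h6
        exact hu hpN (by
          have := dvd_add h6 ((hpN'.mul_left b).mul_right u)
          simpa using this)
      · have h0 : 0 ≤ (a * u) % N + N := by
          have := Int.emod_nonneg (a * u) (show (N : ℤ) ≠ 0 by exact_mod_cast hN.ne')
          omega
        rw [Int.toNat_of_nonneg h0]
        refine ⟨1 - a * u / N, ?_⟩
        have := Int.emod_add_mul_ediv (a * u) N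
        linear_combination this
    · have hco : N.Coprime p := ((Nat.Prime.coprime_iff_not_dvd hp).mpr hpN).symm
      obtain ⟨k, hk1, hk2⟩ := Nat.chineseRemainder hco ((a * u) % N).toNat 1
      have h0 : 0 ≤ (a * u) % N := Int.emod_nonneg _ (by exact_mod_cast hN.ne')
      have hkp : ¬ p ∣ k := by
        intro h
        have h4 : (1 : ℕ) ≡ 0 [MOD p] := hk2.symm.trans ((Nat.modEq_zero_iff_dvd).mpr h)
        exact hp.one_lt.ne' (Nat.dvd_one.mp ((Nat.modEq_zero_iff_dvd).mp h4))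
      refine ⟨k, Nat.pos_of_ne_zero fun h => hkp (h ▸ dvd_zero p), hkp, ?_⟩
      have h5 : ((k : ℕ) : ℤ) ≡ (((a * u) % N).toNat : ℤ) [ZMOD N] :=
        (Int.natCast_modEq_iff).mpr hk1
      rw [Int.toNat_of_nonneg h0] at h5
      have h6 := h5.trans (Int.mod_modEq _ _)
      exact (Int.modEq_iff_dvd.mp h6.symm)
  obtain ⟨m, hm0, hmp, hm⟩ := hmul
  refine ⟨_, _, hS.mul _ _ h1 m hm0 hmp, ?_⟩
  have h8 : (m : ℤ) * x1 - (m : ℤ) * y1 - u = ((m : ℤ) - a * u) * (x1 - y1) - b * u * N := by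
    linear_combination u * hab
  rw [h8]
  exact dvd_sub (hm.mul_right _) (Dvd.intro_left _ rfl)

end Pool.Agent.H96.KR
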