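import Pool.Agent.H96.KR.Orb
import Pool.Graph.R_pool_sql_team_seeded_efc1946e.K1H2.KR.Dfc
import Pool.Graph.R_seed8.Q288.MB.Gal

/-!
# Defect zero classes and characters and the degrees of their fields of values
-/

set_option autoImplicit false
set_option linter.unusedSectionVars false

open scoped BigOperators Classical

noncomputable section

namespace Pool.Agent.H96.KR

open Pool.Agent.Y63.AWC (IsIrreducibleCharacter numDefectZero)
open Pool.Agent.Y63.KR (alternatingSum)
open Pool.Agent.K1H2.KR
open Pool.Agent.Helper884.IC (Irr irr_finite mem_Irr IsIrrChar IsClass)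

/-- The values of the irreducible characters at the element `x`. -/
def column {H : Type} [Group H] (x : H) (χ : {χ : H → ℂ // IsIrreducibleCharacter χ}) : ℂ := χ.1 x

/-- The number of classes of `p`-defect zero of `H` for which the degree of the field generated by
the values of the irreducible characters is not divisible by `N`. -/
def numClassZeroDeg (p N : ℕ) (H : Type) [Group H] : ℕ :=
  Nat.card {c : ConjClasses H // ∃ x : H, ConjClasses.mk x = c ∧
    ¬ p ∣ Nat.card (Subgroup.centralizer ({x} : Set H)) ∧ ¬ N ∣ valueDegree (column x)}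

/-- The number of irreducible characters of `p`-defect zero of `G` whose field of values has degree
not divisible by `N`. -/
def numDefectZeroDeg (p N : ℕ) (G : Type) [Group G] : ℕ :=
  Nat.card {χ : G → ℂ // (IsIrreducibleCharacter χ ∧
    ∃ n : ℕ, χ 1 = (n : ℂ) ∧ n.factorization p = (Nat.card G).factorization p) ∧
      ¬ N ∣ valueDegree χ}

/-- characters of defect zero modulo `N` -/
theorem numDefectZero_modEq (p N : ℕ) (G : Type) [Group G] [Finite G] :
    (N : ℤ) ∣ (numDefectZero p G : ℤ) - (numDefectZeroDeg p N G : ℤ) := by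
  have := Fintype.ofFinite G
  let X := {χ : G → ℂ // IsIrreducibleCharacter χ ∧
    ∃ n : ℕ, χ 1 = (n : ℂ) ∧ n.factorization p = (Nat.card G).factorization p}
  have hX : Finite X := by
    have h1 : {χ : G → ℂ | IsIrrChar χ}.Finite := irr_finite
    have h2 : {χ : G → ℂ | IsIrreducibleCharacter χ ∧ ∃ n : ℕ, χ 1 = (n : ℂ) ∧
        n.factorization p = (Nat.card G).factorization p}.Finite := h1.subset fun χ h => h.1
    exact h2.to_subtype
  have h := card_modEq (X := X) (fun χ => χ.1) Subtype.val_injective
    (fun χ g => by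
      have := Pool.Agent.Y63.AWC.isIntegral_char χ.2.1 g
      exact this.tower_top)
    (fun σ χ => by
      obtain ⟨χ, h1, n, h2, h3⟩ := χ
      exact ⟨⟨fun g => σ (χ g), Pool.Agent.Q90.WR.irr_gal σ h1, n,
        (congrArg σ h2).trans (map_natCast σ n), h3⟩,
        fun i => rfl⟩) N
  have e : {x : X // ¬ N ∣ valueDegree x.1} ≃ {χ : G → ℂ // (IsIrreducibleCharacter χ ∧
      ∃ n : ℕ, χ 1 = (n : ℂ) ∧ n.factorization p = (Nat.card G).factorization p) ∧
        ¬ N ∣ valueDegree χ} :=
    Equiv.subtypeSubtypeEquivSubtypeInter _ (fun χ : G → ℂ => ¬ N ∣ valueDegree χ)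
  rw [Nat.card_congr e] at h
  exact h

/-- irreducible characters separate the classes -/
theorem isConj_of_column {H : Type} [Group H] [Finite H] {x y : H} (h : column x = column y) :
    IsConj x y := by
  have := Fintype.ofFinite H
  have h1 := Pool.Agent.Helper884.IC.expand (Pool.Agent.H254R3.IN.ind x)
    (Pool.Agent.H254R3.IN.ind_cl x)
  have h2 : Pool.Agent.H254R3.IN.ind x x = Pool.Agent.H254R3.IN.ind x y := by
    rw [h1, Finset.sum_apply, Finset.sum_apply]
    refine Finset.sum_congr rfl fun χ hχ => ?_
    rw [Pi.smul_apply, Pi.smul_apply]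
    congr 1
    exact congrFun h ⟨χ, mem_Irr.mp hχ⟩
  unfold Pool.Agent.H254R3.IN.ind at h2
  rw [if_pos (IsConj.refl x)] at h2
  by_contra h3
  rw [if_neg h3] at h2
  exact one_ne_zero h2

theorem column_congr {H : Type} [Group H] {x y : H} (h : IsConj x y) : column x = column y := by
  funext χ
  exact Pool.Agent.H254R3.IN.IsIrr.isConj χ.2 h

/-- classes of defect zero modulo `N` -/
theorem numClassZero_modEq (p N : ℕ) (H : Type) [Group H] [Finite H] :
    (N : ℤ) ∣ (numClassZero p H : ℤ) - (numClassZeroDeg p N H : ℤ) := by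
  have := Fintype.ofFinite H
  let X := {c : ConjClasses H // ∃ x : H, ConjClasses.mk x = c ∧
    ¬ p ∣ Nat.card (Subgroup.centralizer ({x} : Set H))}
  have hX : Finite X := inferInstance
  have hI : Finite {χ : H → ℂ // IsIrreducibleCharacter χ} := by
    have h1 : {χ : H → ℂ | IsIrrChar χ}.Finite := irr_finite
    exact h1.to_subtype
  choose! f hf hf' using fun c : X => c.2
  have h := card_modEq (X := X) (fun c => column (f c))
    (fun c c' h => Subtype.ext (by
      rw [← hf c, ← hf c']
      exact ConjClasses.mk_eq_mk_iff_isConj.mpr (isConj_of_column h)))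
    (fun c χ => by
      have := Pool.Agent.Y63.AWC.isIntegral_char χ.2 (f c)
      exact this.tower_top)
    (fun σ c => by
      obtain ⟨j, hj, h1⟩ := Pool.Agent.Q288.MB.exists_pow σ (N := Nat.card H) Nat.card_pos
      have h2 : ¬ p ∣ Nat.card (Subgroup.centralizer ({f c ^ j} : Set H)) := by
        have h3 : Subgroup.centralizer ({f c ^ j} : Set H) = Subgroup.centralizer {f c} := by
          ext y
          rw [Subgroup.mem_centralizer_singleton_iff, Subgroup.mem_centralizer_singleton_iff]
          have h4 : Commute y (f c ^ j) ↔ Commute y (f c) := by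
            constructor
            · intro h5
              have h6 : (Nat.card H).Coprime j := hj
              obtain ⟨m, hm⟩ := exists_pow_eq_self_of_coprime
                ((Nat.Coprime.coprime_dvd_left (orderOf_dvd_natCard (f c)) h6).symm)
              rw [← hm]
              exact h5.pow_right m
            · exact fun h5 => h5.pow_right j
          exact h4
        rw [h3]
        exact hf' c
      refine ⟨⟨ConjClasses.mk (f c ^ j), f c ^ j, rfl, h2⟩, fun χ => ?_⟩
      have h5 : IsConj (f (⟨ConjClasses.mk (f c ^ j), f c ^ j, rfl, h2⟩ : X)) (f c ^ j) :=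
        ConjClasses.mk_eq_mk_iff_isConj.mp (hf _)
      rw [column_congr h5]
      exact (h1 H χ.1 χ.2 (f c) pow_card_eq_one').symm) N
  have e : {x : X // ¬ N ∣ valueDegree (column (f x))} ≃
      {c : ConjClasses H // ∃ x : H, ConjClasses.mk x = c ∧
        ¬ p ∣ Nat.card (Subgroup.centralizer ({x} : Set H)) ∧ ¬ N ∣ valueDegree (column x)} :=
    { toFun := fun x => ⟨x.1.1, f x.1, hf x.1, hf' x.1, x.2⟩
      invFun := fun c => ⟨⟨c.1, by
        obtain ⟨x, h1, h2, _⟩ := c.2
        exact ⟨x, h1, h2⟩⟩, by
        obtain ⟨x, h1, h2, h3⟩ := c.2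
        have h4 : IsConj (f (⟨c.1, ⟨x, h1, h2⟩⟩ : X)) x := by
          exact ConjClasses.mk_eq_mk_iff_isConj.mp ((hf _).trans h1.symm)
        rwa [column_congr h4]⟩
      left_inv := fun x => rfl
      right_inv := fun x => rfl }
  rw [Nat.card_congr e] at h
  exact h

/-- the difference of the two sides modulo `N` -/
theorem krDiff_modEq (p N : ℕ) [Fact p.Prime] (G : Type) [Group G] [Finite G] :
    (N : ℤ) ∣ (Pool.Agent.Q90.WR.altK p G - numDefectZero p G) -
      (alternatingSum p G (fun H => (numClassZeroDeg p N H : ℤ)) - numDefectZeroDeg p N G) := by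
  have h1 : (N : ℤ) ∣ Pool.Agent.Q90.WR.altK p G -
      alternatingSum p G (fun H => (numClassZeroDeg p N H : ℤ)) := by
    rw [altK_zero]
    unfold alternatingSum
    rw [finsum_eq_sum_of_fintype, finsum_eq_sum_of_fintype, ← Finset.sum_sub_distrib]
    refine Finset.dvd_sum fun c _ => ?_
    rw [← mul_sub]
    exact (numClassZero_modEq p N _).mul_left _
  have h2 := numDefectZero_modEq p N G
  have h3 : (Pool.Agent.Q90.WR.altK p G - numDefectZero p G) -
      (alternatingSum p G (fun H => (numClassZeroDeg p N H : ℤ)) - numDefectZeroDeg p N G) =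
      (Pool.Agent.Q90.WR.altK p G -
      alternatingSum p G (fun H => (numClassZeroDeg p N H : ℤ))) -
      ((numDefectZero p G : ℤ) - (numDefectZeroDeg p N G : ℤ)) := by ring
  rw [h3]
  exact dvd_sub h1 h2

end Pool.Agent.H96.KR
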