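import Pool.Graph.R_seed8.R663.KRB.Kdim

/-!
# The number of irreducible characters
-/

set_option autoImplicit false

open scoped Classical

noncomputable section

namespace Pool.Agent.H96.KR

theorem card_irr (C : Type) [Group C] [Finite C] :
    Nat.card (ConjClasses C) = Nat.card {χ : C → ℂ // Pool.Agent.Helper884.IC.IsIrrChar χ} := by
  have := Fintype.ofFinite C
  have h := Pool.Agent.R663.KRB.card_irr_eq (J := C)
  rw [← Nat.card_eq_fintype_card, ← Nat.card_eq_fintype_card] at h
  rw [h]
  exact Nat.card_congr (Equiv.subtypeEquivRight fun χ => Pool.Agent.Helper884.IC.mem_Irr)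

end Pool.Agent.H96.KR
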