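import Pool.Agent.H96.KR.Ar
import Pool.Agent.H96.KR.Cnt
import Pool.Graph.R_pool_sql_team_seeded_63374d34.N20.KRM.Mult
import Pool.Agent.H96.KR.Irc

/-!
# Groups of order prime to `p`, products, and the pairs of numbers attached to groups
-/

set_option autoImplicit false
set_option linter.unusedSectionVars false

open scoped BigOperators Classical

noncomputable section

namespace Pool.Agent.H96.KR

open Pool.Agent.Y63.AWC (IsIrreducibleCharacter numDefectZero)
open Pool.Agent.Y63.KR (alternatingSum KRC IsPChain chainStabilizer chainSetoid)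
open Pool.Agent.K1H2.KR
open Pool.Agent.Q90.WR (altK krc_altK)
open Pool.Agent.Helper884.IC (Irr irr_finite mem_Irr IsIrrChar)

variable {p : ℕ} [hp : Fact p.Prime]

/-- groups of order prime to `p` -/
theorem altK_coprime (C : Type) [Group C] [Finite C] (h : ¬ p ∣ Nat.card C) :
    altK p C = Nat.card (ConjClasses C) := by
  have hσ : ∀ σ : {σ : Set (Subgroup C) // IsPChain p σ}, σ.1 = ∅ := by
    intro σ
    rw [Set.eq_empty_iff_forall_notMem]
    intro P hP
    have h1 := σ.2.isPGroup P hP
    have h2 := σ.2.ne_bot P hP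
    obtain ⟨k, hk⟩ := IsPGroup.iff_card.mp h1
    rcases Nat.eq_zero_or_pos k with h0 | h0
    · rw [h0, pow_zero] at hk
      exact h2 ((Subgroup.card_eq_one).mp hk)
    · apply h
      have h3 : p ∣ Nat.card P := by
        rw [hk]
        exact dvd_pow_self p h0.ne'
      exact h3.trans (Subgroup.card_subgroup_dvd_card P)
  have hu : Unique (Quotient (chainSetoid p C)) :=
    { default := Quotient.mk _ ⟨∅, ⟨by simp, by simp, by simp⟩⟩
      uniq := by
        intro c
        induction c using Quotient.inductionOn with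
        | h σ =>
          congr 1
          exact Subtype.ext (hσ σ) }
  unfold altK alternatingSum
  rw [finsum_unique, hσ, Set.ncard_empty, pow_zero, one_mul, Pool.Agent.Y63.NV.chainStabilizer_empty]
  show ((Nat.card (ConjClasses (⊤ : Subgroup C)) : ℕ) : ℤ) = _
  rw [Pool.Agent.N20.KRM.k_equiv (Subgroup.topEquiv : (⊤ : Subgroup C) ≃* C)]

theorem z_coprime (C : Type) [Group C] [Finite C] (h : ¬ p ∣ Nat.card C) :
    numDefectZero p C = Nat.card (ConjClasses C) := by
  have := Fintype.ofFinite C
  rw [card_irr]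
  unfold numDefectZero
  refine Nat.card_congr (Equiv.subtypeEquivRight fun χ => ?_)
  constructor
  · exact fun h1 => h1.1
  · intro h1
    obtain ⟨n, -, hn⟩ := Pool.Agent.H254R3.IN.IsIrr.deg h1
    refine ⟨h1, n, hn.symm, ?_⟩
    have h2 := Pool.Agent.Y63.AWC.deg_dvd h1 hn.symm
    rw [Nat.factorization_eq_zero_of_not_dvd h, Nat.factorization_eq_zero_of_not_dvd]
    exact fun h3 => h (h3.trans h2)

/-- the cyclic group of order `m` -/
abbrev Cyc (m : ℕ) : Type := Multiplicative (ZMod m)

theorem card_classes_cyc (m : ℕ) [NeZero m] : Nat.card (ConjClasses (Cyc m)) = m := by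
  have h1 : Nat.card (ConjClasses (Cyc m)) = Nat.card (Cyc m) :=
    (Nat.card_congr (Equiv.ofBijective (ConjClasses.mk : Cyc m → ConjClasses (Cyc m))
      ⟨fun a b h => isConj_iff_eq.mp (ConjClasses.mk_eq_mk_iff_isConj.mp h),
        ConjClasses.mk_surjective⟩)).symm
  rw [h1]
  exact (Nat.card_congr Multiplicative.toAdd).trans (Nat.card_zmod m)

theorem altK_mul (G : Type) [Group G] [Finite G] (m : ℕ) [NeZero m] (hm : ¬ p ∣ m) :
    altK p (G × Cyc m) = m * altK p G := by
  have h1 : altK p (G × Cyc m) = altK p G * altK p (Cyc m) :=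
    Pool.Agent.N20.KRM.aK_prod (p := p) G (Cyc m)
  have h2 : Nat.card (Cyc m) = m := (Nat.card_congr Multiplicative.toAdd).trans (Nat.card_zmod m)
  rw [h1, altK_coprime (Cyc m) (by rwa [h2]), card_classes_cyc, mul_comm]

theorem z_mul (G : Type) [Group G] [Finite G] (m : ℕ) [NeZero m] (hm : ¬ p ∣ m) :
    (numDefectZero p (G × Cyc m) : ℤ) = m * numDefectZero p G := by
  have h2 : Nat.card (Cyc m) = m := (Nat.card_congr Multiplicative.toAdd).trans (Nat.card_zmod m)
  rw [Pool.Agent.N20.KRM.z_prod, z_coprime (Cyc m) (by rwa [h2]), card_classes_cyc]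
  push_cast
  ring

/-- The class `X` of groups is closed under direct products with cyclic groups of order prime to `p`
and under wreath products with cyclic groups of prime order. -/
structure Closed (p : ℕ) (X : (H : Type) → [Group H] → Prop) : Prop where
  prod : ∀ (H : Type) [Group H] (m : ℕ), 0 < m → ¬ p ∣ m → X H → X (H × Cyc m)
  wr : ∀ (H : Type) [Group H] (q : ℕ), q.Prime → X H → X (WrC q H)

/-- the pairs attached to the groups in a class -/
def pairs (p : ℕ) (X : (H : Type) → [Group H] → Prop) : Set (ℤ × ℤ) :=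
  {z | ∃ (G : Type) (_ : Group G) (_ : Finite G), X G ∧ z = (altK p G, (numDefectZero p G : ℤ))}

theorem cl_pairs {X : (H : Type) → [Group H] → Prop} (hX : Closed p X) : Cl p (pairs p X) where
  mul := by
    rintro x y ⟨G, i1, i2, h1, h2⟩ m hm hpm
    have : NeZero m := ⟨hm.ne'⟩
    refine ⟨G × Cyc m, inferInstance, inferInstance, hX.prod G m hm hpm h1, ?_⟩
    rw [Prod.mk.injEq] at h2
    rw [Prod.mk.injEq, altK_mul G m hpm, z_mul G m hpm, h2.1, h2.2]
    exact ⟨rfl, rfl⟩
  wr := by
    rintro x y ⟨G, i1, i2, h1, h2⟩ q hq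
    have : Fact q.Prime := ⟨hq⟩
    rw [Prod.mk.injEq] at h2
    refine ⟨altK p (WrC q G), numDefectZero p (WrC q G), ⟨WrC q G, inferInstance, inferInstance,
      hX.wr G q hq h1, rfl⟩, ?_, ?_⟩
    · rw [h2.1]
      exact rec_f
    · rw [h2.2]
      exact rec_z

/-- The alternating sum over the classes of chains `σ` of nontrivial `p`-subgroups of `G` of the
number of the classes of `p`-defect zero of the stabiliser `G_σ` whose field of values has degree not
divisible by `N`, minus the number of the irreducible characters of `G` of `p`-defect zero whose field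
of values has degree not divisible by `N`. -/
def restrictedDiff (p N : ℕ) (G : Type) [Group G] : ℤ :=
  alternatingSum p G (fun H => (numClassZeroDeg p N H : ℤ)) - numDefectZeroDeg p N G

theorem dvd_diff (p N : ℕ) [Fact p.Prime] (G : Type) [Group G] [Finite G] (u : ℤ) :
    (N : ℤ) ∣ restrictedDiff p N G - u ↔ (N : ℤ) ∣ (altK p G - numDefectZero p G) - u := by
  have h := krDiff_modEq p N G
  unfold restrictedDiff
  constructor
  · intro h1
    have h2 := dvd_add h h1
    rwa [sub_add_sub_cancel] at h2
  · intro h1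
    have h2 := dvd_sub h1 h
    rwa [sub_sub_sub_cancel_left] at h2

theorem dvd_diff' (p N : ℕ) [Fact p.Prime] (G : Type) [Group G] [Finite G] :
    (N : ℤ) ∣ restrictedDiff p N G ↔ (N : ℤ) ∣ altK p G - numDefectZero p G := by
  have h := dvd_diff p N G 0
  rwa [sub_zero, sub_zero] at h

open Pool.Agent.R674.Ce (krDiff)

theorem krDiff_dvd (p N : ℕ) [Fact p.Prime] (G : Type) [Group G] [Finite G] :
    (∃ c : ℤ, krDiff p G = (N : ℚ) * c) ↔ (N : ℤ) ∣ altK p G - numDefectZero p G := by
  rw [krDiff_int]
  constructor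
  · rintro ⟨c, hc⟩
    exact ⟨c, by exact_mod_cast hc⟩
  · rintro ⟨c, hc⟩
    exact ⟨c, by rw [hc]; push_cast; ring⟩

theorem krDiff_restricted (p N : ℕ) [Fact p.Prime] (G : Type) [Group G] [Finite G] :
    ∃ c : ℤ, krDiff p G = (restrictedDiff p N G : ℚ) + (N : ℚ) * c := by
  obtain ⟨c, hc⟩ := krDiff_modEq p N G
  refine ⟨c, ?_⟩
  rw [krDiff_int]
  have h : altK p G - numDefectZero p G = restrictedDiff p N G + N * c := by
    unfold restrictedDiff
    linear_combination hc
  rw [h]
  push_cast
  rfl

theorem levels (r : ℕ) [hr : Fact r.Prime] (p : ℕ) [Fact p.Prime] : ∀ (a : ℕ) (G : Type)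
    [Group G] [Finite G], ((r : ℤ) ^ a ∣ altK p G - numDefectZero p G ↔
      ∀ j < a, (r : ℤ) ∣ altK p (It r j G) - numDefectZero p (It r j G)) := by
  intro a
  induction a with
  | zero =>
    intro G _ _
    rw [pow_zero]
    exact ⟨fun _ j hj => absurd hj (Nat.not_lt_zero j), fun _ => one_dvd _⟩
  | succ a ih =>
    intro G _ _
    constructor
    · intro h j hj
      cases j with
      | zero => exact (dvd_pow_self _ (Nat.succ_ne_zero a)).trans h
      | succ j =>
        refine (ih (WrC r G)).mp ?_ j (by omega)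
        have h1 := rec_f (G := G) (q := r) (p := p)
        have h2 := rec_z (G := G) (q := r) (p := p)
        have h3 : (r : ℤ) * (altK p (WrC r G) - numDefectZero p (WrC r G)) =
            (altK p G ^ r - (numDefectZero p G : ℤ) ^ r) +
              cf r p * (altK p G - numDefectZero p G) := by
          rw [mul_sub, h1, h2]
          ring
        have h4 : (r : ℤ) ^ (a + 1) ∣ (r : ℤ) * (altK p (WrC r G) - numDefectZero p (WrC r G)) := by
          rw [h3]
          exact dvd_add (h.trans (sub_dvd_pow_sub_pow _ _ _)) (h.mul_left _)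
        rw [pow_succ'] at h4
        exact (mul_dvd_mul_iff_left (by exact_mod_cast hr.out.ne_zero)).mp h4
    · intro h
      exact it_dvd r p a G fun j hj => h j (by omega)

end Pool.Agent.H96.KR
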