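import Mathlib
import Pool.Graph.R_seed8.H977R3.CM.Aut

/-!
# Galois orbits of families of algebraic numbers and degrees of fields of values
-/

set_option autoImplicit false

open scoped Classical

noncomputable section

namespace Pool.Agent.H96.KR

/-- The degree over the rationals of the field generated by the values of the function `f`. -/
def valueDegree {I : Type} (f : I → ℂ) : ℕ :=
  Module.finrank ℚ (IntermediateField.adjoin ℚ (Set.range f))

/-- Embeddings of a subfield of `ℂ` which is finite over the rationals extend to automorphisms. -/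
theorem exists_ext (F : IntermediateField ℚ ℂ) [FiniteDimensional ℚ F] (φ : F →ₐ[ℚ] ℂ) :
    ∃ σ : ℂ ≃+* ℂ, ∀ x : F, σ x = φ x := by
  let L := IntermediateField.normalClosure ℚ F ℂ
  have : FiniteDimensional ℚ L := inferInstance
  have hn : IsNormalClosure ℚ F L :=
    Algebra.IsAlgebraic.isNormalClosure_normalClosure fun x => IsAlgClosed.splits _
  have : Normal ℚ L := hn.normal
  have : IsGalois ℚ L := ⟨⟩
  have hF : F ≤ L := by
    have := AlgHom.fieldRange_le_normalClosure F.val
    rwa [IntermediateField.fieldRange_val] at this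
  have hφ : φ.fieldRange ≤ L := AlgHom.fieldRange_le_normalClosure φ
  let i : F →ₐ[ℚ] L := IntermediateField.inclusion hF
  let ψ : F →ₐ[ℚ] L := φ.codRestrict L.toSubalgebra fun x => hφ ⟨x, rfl⟩
  obtain ⟨g, hg⟩ : ∃ g : L →ₐ[ℚ] L, ∀ x, g (i x) = ψ x := by
    let _ : Algebra F L := i.toRingHom.toAlgebra
    have _ : IsScalarTower ℚ F L := IsScalarTower.of_algebraMap_eq fun x => (i.commutes x).symm
    let g := ψ.liftNormal L
    exact ⟨g, fun x => AlgHom.liftNormal_commutes ψ L x⟩
  let g' : L ≃ₐ[ℚ] L := AlgEquiv.ofBijective g (AlgHom.normal_bijective ℚ L L g)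
  obtain ⟨σ, hσ⟩ := Pool.Agent.H977R3.CM.exists_aut (L.val : L →+* ℂ) (g' : L ≃+* L)
  refine ⟨σ, fun x => ?_⟩
  have h1 := hσ (i x)
  have h2 : (g' : L ≃+* L) (i x) = ψ x := hg x
  rw [h2] at h1
  exact h1

/-- The number of the conjugates of a finite family of algebraic numbers is the degree of the field
which it generates. -/
theorem card_conj {X I : Type} [Finite I] (e : X → I → ℂ) (he : Function.Injective e)
    (halg : ∀ x i, IsIntegral ℚ (e x i))
    (hst : ∀ (σ : ℂ ≃+* ℂ) (x : X), ∃ y : X, ∀ i, e y i = σ (e x i)) (x : X) :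
    Nat.card {y : X // ∃ σ : ℂ ≃+* ℂ, ∀ i, e y i = σ (e x i)} = valueDegree (e x) := by
  let F := IntermediateField.adjoin ℚ (Set.range (e x))
  have : FiniteDimensional ℚ F :=
    IntermediateField.finiteDimensional_adjoin fun z hz => by
      obtain ⟨i, rfl⟩ := hz
      exact halg x i
  have hm : ∀ i, e x i ∈ F := fun i => IntermediateField.subset_adjoin ℚ _ ⟨i, rfl⟩
  have h1 : ∀ φ : F →ₐ[ℚ] ℂ, ∃ y : {y : X // ∃ σ : ℂ ≃+* ℂ, ∀ i, e y i = σ (e x i)},
      ∀ i, e y.1 i = φ ⟨e x i, hm i⟩ := by
    intro φ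
    obtain ⟨σ, hσ⟩ := exists_ext F φ
    obtain ⟨y, hy⟩ := hst σ x
    exact ⟨⟨y, σ, hy⟩, fun i => by rw [hy i, ← hσ]⟩
  choose Φ hΦ using h1
  have hb : Function.Bijective Φ := by
    constructor
    · intro φ ψ h
      have h2 : ∀ z (hz : z ∈ F), φ ⟨z, hz⟩ = ψ ⟨z, hz⟩ := by
        intro z hz
        induction hz using IntermediateField.adjoin_induction with
        | mem z hz =>
          obtain ⟨i, rfl⟩ := hz
          rw [← hΦ φ i, ← hΦ ψ i, h]
        | algebraMap q =>
          exact (φ.commutes q).trans (ψ.commutes q).symm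
        | add a b ha hb iha ihb =>
          exact (map_add φ ⟨a, ha⟩ ⟨b, hb⟩).trans
            ((congrArg₂ (· + ·) iha ihb).trans (map_add ψ ⟨a, ha⟩ ⟨b, hb⟩).symm)
        | inv a ha iha =>
          exact (map_inv₀ φ ⟨a, ha⟩).trans ((congrArg _ iha).trans (map_inv₀ ψ ⟨a, ha⟩).symm)
        | mul a b ha hb iha ihb =>
          exact (map_mul φ ⟨a, ha⟩ ⟨b, hb⟩).trans
            ((congrArg₂ (· * ·) iha ihb).trans (map_mul ψ ⟨a, ha⟩ ⟨b, hb⟩).symm)
      exact AlgHom.ext fun z => h2 z.1 z.2
    · rintro ⟨y, σ, hy⟩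
      refine ⟨(σ : ℂ →+* ℂ).toRatAlgHom.comp F.val, ?_⟩
      apply Subtype.ext
      apply he
      funext i
      rw [hΦ, hy i]
      rfl
  rw [← Nat.card_congr (Equiv.ofBijective Φ hb), Nat.card_eq_fintype_card, AlgHom.card]
  rfl

/-- The number of the members whose field of values has degree divisible by `N` is divisible by
`N`. -/
theorem dvd_card {X I : Type} [Finite X] [Finite I] (e : X → I → ℂ) (he : Function.Injective e)
    (halg : ∀ x i, IsIntegral ℚ (e x i))
    (hst : ∀ (σ : ℂ ≃+* ℂ) (x : X), ∃ y : X, ∀ i, e y i = σ (e x i)) (N : ℕ) :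
    N ∣ Nat.card {x : X // N ∣ valueDegree (e x)} := by
  have := Fintype.ofFinite X
  let r : Setoid X :=
    { r := fun x y => ∃ σ : ℂ ≃+* ℂ, ∀ i, e y i = σ (e x i)
      iseqv :=
        { refl := fun x => ⟨RingEquiv.refl ℂ, fun i => rfl⟩
          symm := by
            rintro x y ⟨σ, h⟩
            exact ⟨σ.symm, fun i => by rw [h i, RingEquiv.symm_apply_apply]⟩
          trans := by
            rintro x y z ⟨σ, h⟩ ⟨τ, h'⟩
            exact ⟨σ.trans τ, fun i => by rw [h' i, h i]; rfl⟩ } }
  have hd : ∀ x y : X, r x y → valueDegree (e x) = valueDegree (e y) := by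
    intro x y h
    rw [← card_conj e he halg hst x, ← card_conj e he halg hst y]
    refine Nat.card_congr (Equiv.subtypeEquivRight fun z => ?_)
    exact ⟨fun h' => r.trans (r.symm h) h', fun h' => r.trans h h'⟩
  rw [Nat.card_eq_fintype_card, Fintype.card_subtype,
    Finset.card_eq_sum_card_fiberwise (f := fun x => (Quotient.mk r x)) (t := Finset.univ)
      (fun x _ => Finset.mem_coe.mpr (Finset.mem_univ _))]
  refine Finset.dvd_sum fun q _ => ?_
  by_cases hq : ∃ x, N ∣ valueDegree (e x) ∧ Quotient.mk r x = q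
  · obtain ⟨x, hx, rfl⟩ := hq
    refine (hx.trans (dvd_of_eq (card_conj e he halg hst x).symm)).trans (dvd_of_eq ?_)
    rw [Nat.card_eq_fintype_card, Fintype.card_subtype, Finset.filter_filter]
    congr 1
    ext y
    rw [Finset.mem_filter, Finset.mem_filter]
    refine and_congr_right fun _ => ?_
    rw [Quotient.eq]
    constructor
    · intro h
      exact ⟨hd x y h ▸ hx, r.symm h⟩
    · rintro ⟨_, h⟩
      exact r.symm h
  · rw [Finset.card_eq_zero.mpr]
    · exact dvd_zero _
    · rw [Finset.filter_filter, Finset.filter_eq_empty_iff]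
      intro x _ h
      exact hq ⟨x, h⟩

/-- Modulo `N` only the members whose field of values has degree not divisible by `N` count. -/
theorem card_modEq {X I : Type} [Finite X] [Finite I] (e : X → I → ℂ)
    (he : Function.Injective e) (halg : ∀ x i, IsIntegral ℚ (e x i))
    (hst : ∀ (σ : ℂ ≃+* ℂ) (x : X), ∃ y : X, ∀ i, e y i = σ (e x i)) (N : ℕ) :
    (N : ℤ) ∣ (Nat.card X : ℤ) - (Nat.card {x : X // ¬ N ∣ valueDegree (e x)} : ℤ) := by
  have := Fintype.ofFinite X
  have h1 : Nat.card X = Nat.card {x : X // N ∣ valueDegree (e x)} +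
      Nat.card {x : X // ¬ N ∣ valueDegree (e x)} := by
    rw [← Nat.card_sum]
    exact Nat.card_congr (Equiv.sumCompl _).symm
  rw [h1]
  push_cast
  rw [add_sub_cancel_right]
  exact_mod_cast dvd_card e he halg hst N

end Pool.Agent.H96.KR
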